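import Pool.Agent.Run7.h820.HQ.Split

/-!
# Positive forms of type (1,1), integrated forms, the positive side
-/

set_option autoImplicit false
set_option linter.unusedSectionVars false

namespace Pool.Agent.Run7.h820.HQ

open Finset MeasureTheory Pool.Agent.W666.GB Pool.Agent.W669.HD
open Pool.Agent.R770.NS (SymForm knSq)
open Pool.Agent.Y195.HF (SkewForm skewCurv)

variable {V : Type} [NormedAddCommGroup V] [InnerProductSpace ℝ V] {m : ℕ}

section op

theorem op_fintype {K : V → V → V → V → ℝ} (hn : OpNonneg K) {ι : Type} [Fintype ι]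
    (x y : ι → V) : 0 ≤ ∑ a, ∑ b, K (x a) (y a) (x b) (y b) := by
  have eqv := (Fintype.equivFin ι).symm
  have h := hn _ (fun a => x (eqv a)) (fun a => y (eqv a))
  rw [Equiv.sum_comp eqv (fun a => ∑ b, K (x a) (y a) (x (eqv b)) (y (eqv b)))] at h
  refine h.trans (le_of_eq (Finset.sum_congr rfl fun a _ => ?_))
  exact Equiv.sum_comp eqv (fun b => K (x a) (y a) (x b) (y b))

/-- the form which a positive semidefinite form induces on bivectors is nonnegative -/
theorem knSq_op {H : V → V → ℝ} (hH : SymForm H) (hp : ∀ x, 0 ≤ H x x) : OpNonneg (knSq H) := by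
  intro n x y
  set u : Fin n ⊕ Fin n → V := Sum.elim x y with hu
  obtain ⟨B, hB⟩ := sq_real (Matrix.of fun p q => H (u p) (u q)) (fun p q => hH.symm _ _)
    (fun c => by
      have h1 := hH.expand u c c
      have h2 := hp (∑ i, c i • u i)
      rw [h1] at h2
      refine h2.trans (le_of_eq ?_)
      exact Finset.sum_congr rfl fun p _ => Finset.sum_congr rfl fun q _ => by
        rw [Matrix.of_apply]; ring)
  have hxx : ∀ a b, H (x a) (x b) = ∑ c, B c (Sum.inl a) * B c (Sum.inl b) :=
    fun a b => hB (Sum.inl a) (Sum.inl b)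
  have hyy : ∀ a b, H (y a) (y b) = ∑ c, B c (Sum.inr a) * B c (Sum.inr b) :=
    fun a b => hB (Sum.inr a) (Sum.inr b)
  have hxy : ∀ a b, H (x a) (y b) = ∑ c, B c (Sum.inl a) * B c (Sum.inr b) :=
    fun a b => hB (Sum.inl a) (Sum.inr b)
  have hyx : ∀ a b, H (y a) (x b) = ∑ c, B c (Sum.inr a) * B c (Sum.inl b) :=
    fun a b => hB (Sum.inr a) (Sum.inl b)
  set P : (Fin n ⊕ Fin n) → (Fin n ⊕ Fin n) → ℝ :=
    fun c d => ∑ a, B c (Sum.inl a) * B d (Sum.inr a) with hP
  have h1 : ∑ a, ∑ b, H (x a) (x b) * H (y a) (y b) = ∑ c, ∑ d, P c d * P c d := by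
    simp only [hxx, hyy, hP, Finset.sum_mul_sum]
    rw [Finset.sum_congr rfl fun a _ => Finset.sum_comm, Finset.sum_comm]
    refine Finset.sum_congr rfl fun c _ => ?_
    rw [Finset.sum_congr rfl fun a _ => Finset.sum_comm, Finset.sum_comm]
    refine Finset.sum_congr rfl fun d _ => ?_
    refine Finset.sum_congr rfl fun a _ => Finset.sum_congr rfl fun b _ => ?_
    ring
  have h2 : ∑ a, ∑ b, H (x a) (y b) * H (y a) (x b) = ∑ c, ∑ d, P c d * P d c := by
    simp only [hxy, hyx, hP, Finset.sum_mul_sum]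
    rw [Finset.sum_congr rfl fun a _ => Finset.sum_comm, Finset.sum_comm]
    refine Finset.sum_congr rfl fun c _ => ?_
    rw [Finset.sum_congr rfl fun a _ => Finset.sum_comm, Finset.sum_comm]
    refine Finset.sum_congr rfl fun d _ => ?_
    refine Finset.sum_congr rfl fun a _ => Finset.sum_congr rfl fun b _ => ?_
    ring
  have h3 : ∑ a, ∑ b, knSq H (x a) (y a) (x b) (y b) =
      ∑ c, ∑ d, P c d * P c d - ∑ c, ∑ d, P c d * P d c := by
    rw [← h1, ← h2, ← Finset.sum_sub_distrib]
    refine Finset.sum_congr rfl fun a _ => ?_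
    rw [← Finset.sum_sub_distrib]
    rfl
  have h4 : ∑ c, ∑ d, P c d * P c d = ∑ c, ∑ d, P d c * P d c := Finset.sum_comm
  have h5 : ∑ a, ∑ b, knSq H (x a) (y a) (x b) (y b) = 1 / 2 * ∑ c, ∑ d, (P c d - P d c) ^ 2 := by
    rw [h3]
    have h6 : ∑ c, ∑ d, (P c d - P d c) ^ 2 = ∑ c, ∑ d, P c d * P c d +
        ∑ c, ∑ d, P d c * P d c - 2 * ∑ c, ∑ d, P c d * P d c := by
      rw [Finset.mul_sum, ← Finset.sum_add_distrib, ← Finset.sum_sub_distrib]
      refine Finset.sum_congr rfl fun c _ => ?_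
      rw [Finset.mul_sum, ← Finset.sum_add_distrib, ← Finset.sum_sub_distrib]
      exact Finset.sum_congr rfl fun d _ => by ring
    rw [h6, ← h4]
    ring
  rw [h5]
  have : 0 ≤ ∑ c, ∑ d, (P c d - P d c) ^ 2 :=
    Finset.sum_nonneg fun c _ => Finset.sum_nonneg fun d _ => sq_nonneg _
  linarith

variable {J : V →ₗ[ℝ] V}

theorem op_twist {K : V → V → V → V → ℝ} (hK : BiForm K)
    (hsw : ∀ x y z w, K x y (J z) (J w) = K (J x) (J y) z w)
    (hinv : ∀ x y z w, K (J x) (J y) (J z) (J w) = K x y z w) (hn : OpNonneg K) {s : ℝ}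
    (hs : s * s = 1) : OpNonneg fun x y z w => K x y z w + s * K (J x) (J y) z w := by
  intro n x y
  have h := op_fintype hn (Sum.elim x fun a => J (x a)) (Sum.elim y fun a => s • J (y a))
  simp only [Fintype.sum_sum_type, Sum.elim_inl, Sum.elim_inr] at h
  have k4 : ∀ x y z w : V, K x y z (s • w) = s * K x y z w := fun x y z w =>
    (BiForm.l4 hK x y z).map_smul s w
  have k2 : ∀ x y z w : V, K x (s • y) z w = s * K x y z w := fun x y z w =>
    (BiForm.l2 hK x z w).map_smul s y
  have hJJ : ∀ x y z w, K (J (J x)) (J (J y)) z w = K x y z w := fun x y z w => by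
    rw [← hsw, hinv]
  simp only [k4, k2, hsw, hJJ] at h
  have h1 : ∑ a, (∑ b, K (x a) (y a) (x b) (y b) + ∑ b, s * K (J (x a)) (J (y a)) (x b) (y b)) +
      ∑ a, (∑ b, s * K (J (x a)) (J (y a)) (x b) (y b) +
        ∑ b, s * (s * K (x a) (y a) (x b) (y b))) =
      2 * ∑ a, ∑ b, (K (x a) (y a) (x b) (y b) + s * K (J (x a)) (J (y a)) (x b) (y b)) := by
    rw [← Finset.sum_add_distrib, Finset.mul_sum]
    refine Finset.sum_congr rfl fun a _ => ?_
    rw [← Finset.sum_add_distrib, ← Finset.sum_add_distrib, ← Finset.sum_add_distrib,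
      Finset.mul_sum]
    refine Finset.sum_congr rfl fun b _ => ?_
    linear_combination (K (x a) (y a) (x b) (y b)) * hs
  rw [h1] at h
  linarith

theorem op_addF {K L : V → V → V → V → ℝ} (hK : OpNonneg K) (hL : OpNonneg L) :
    OpNonneg fun x y z w => K x y z w + L x y z w := by
  intro n x y
  have h1 := hK n x y
  have h2 := hL n x y
  simp only [Finset.sum_add_distrib]
  linarith

theorem op_sumF {ι : Type} [Fintype ι] {K : ι → V → V → V → V → ℝ} (hK : ∀ i, OpNonneg (K i)) :
    OpNonneg fun x y z w => ∑ i, K i x y z w := by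
  intro n x y
  rw [Finset.sum_congr rfl fun a _ => Finset.sum_comm, Finset.sum_comm]
  exact Finset.sum_nonneg fun i _ => hK i n x y

theorem op_sq (A : V → V → ℝ) {c : ℝ} (hc : 0 ≤ c) : OpNonneg fun x y z w => c * (A x y * A z w) := by
  intro n x y
  have : ∑ a, ∑ b, c * (A (x a) (y a) * A (x b) (y b)) = c * (∑ a, A (x a) (y a)) ^ 2 := by
    rw [sq, Finset.sum_mul_sum, Finset.mul_sum]
    exact Finset.sum_congr rfl fun a _ => by rw [Finset.mul_sum]
  rw [this]
  positivity

end op

section oneone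

variable {J : V →ₗ[ℝ] V}

theorem PosOneOne.l2 {A : V → V → ℝ} (hA : PosOneOne J A) (x y : V) : A x (-y) = -A x y := by
  rw [hA.anti (-y) x, hA.anti y x]
  have := hA.smul (-1) y x
  rw [neg_one_smul] at this
  rw [this]
  ring

theorem PosOneOne.sym {A : V → V → ℝ} (hA : PosOneOne J A) (hJ : ∀ x, J (J x) = -x) :
    SymForm (fun x z => A x (J z)) where
  add x x' y := hA.add _ _ _
  smul t x y := hA.smul _ _ _
  symm x y := by
    rw [← hA.inv y (J x), hJ, hA.l2, ← hA.anti (J y) x]

theorem PosOneOne.split {A : V → V → ℝ} (hA : PosOneOne J A) (hJ : ∀ x, J (J x) = -x) :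
    JSplit J (skewCurv A) := by
  set H : V → V → ℝ := fun x z => A x (J z) with hH
  have hsym : SymForm H := hA.sym hJ
  have hop : OpNonneg (knSq H) := knSq_op hsym hA.nonneg
  have hHinv : ∀ x z, H (J x) (J z) = H x z := fun x z => hA.inv _ _
  have hHA : ∀ x z, H (J x) z = A x z := fun x z => hA.inv _ _
  have hAH : ∀ x z, A (J x) z = -H x z := by
    intro x z
    rw [← hA.inv (J x) z, hJ]
    have h1 := hA.smul (-1) x (J z)
    rw [neg_one_smul] at h1
    rw [h1]
    ring
  have hHJ : ∀ x z, H x (J z) = -A x z := fun x z => by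
    simp only [hH, hJ, hA.l2]
  have hbi : BiForm (knSq H) := Pool.Agent.W150.HD.curv_bi hsym.curv
  have hsw : ∀ x y z w, knSq H x y (J z) (J w) = knSq H (J x) (J y) z w := by
    intro x y z w
    simp only [knSq, hHJ, hHA]
    ring
  have hiv : ∀ x y z w, knSq H (J x) (J y) (J z) (J w) = knSq H x y z w := by
    intro x y z w
    simp only [knSq, hHinv]
  refine ⟨hA.toSkewForm.curv, fun x y z w => ?_, ?_, ?_⟩
  · simp only [skewCurv, hA.inv]
  · have h1 := op_addF (op_sq A (by norm_num : (0 : ℝ) ≤ 4))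
      (op_twist hbi hsw hiv hop (s := 1) (by norm_num))
    have h2 : (fun x y z w => skewCurv A x y z w + skewCurv A (J x) (J y) z w) =
        fun x y z w => 4 * (A x y * A z w) + (knSq H x y z w + 1 * knSq H (J x) (J y) z w) := by
      funext x y z w
      simp only [skewCurv, knSq, hA.inv, hAH, hHA]
      ring
    rw [h2]
    exact h1
  · have h1 := op_twist hbi hsw hiv hop (s := -1) (by norm_num)
    have h2 : (fun x y z w => skewCurv A (J x) (J y) z w - skewCurv A x y z w) =
        fun x y z w => knSq H x y z w + (-1) * knSq H (J x) (J y) z w := by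
      funext x y z w
      simp only [skewCurv, knSq, hA.inv, hAH, hHA]
      ring
    rw [h2]
    exact h1

theorem sum_curvF {ι : Type} [Fintype ι] {S : ι → V → V → V → V → ℝ} (hS : ∀ i, AlgCurv (S i)) :
    AlgCurv fun x y z w => ∑ i, S i x y z w :=
  Pool.Agent.Y519.HB.sum_curv hS

theorem JSplit.sum {ι : Type} [Fintype ι] {N : ι → V → V → V → V → ℝ} (h : ∀ i, JSplit J (N i)) :
    JSplit J fun x y z w => ∑ i, N i x y z w := by
  refine ⟨sum_curvF fun i => (h i).curv, fun x y z w => ?_, ?_, ?_⟩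
  · exact Finset.sum_congr rfl fun i _ => (h i).inv x y z w
  · have h1 := op_sumF fun i => (h i).pos
    simp only [← Finset.sum_add_distrib]
    exact h1
  · have h1 := op_sumF fun i => (h i).neg
    simp only [← Finset.sum_sub_distrib]
    exact h1

theorem JSplit.add {N N' : V → V → V → V → ℝ} (h : JSplit J N) (h' : JSplit J N') :
    JSplit J fun x y z w => N x y z w + N' x y z w := by
  refine ⟨add_curv h.curv h'.curv, fun x y z w => by rw [h.inv, h'.inv], ?_, ?_⟩
  · have h1 := op_addF h.pos h'.pos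
    have h2 : (fun x y z w => N x y z w + N' x y z w + (N (J x) (J y) z w + N' (J x) (J y) z w)) =
        fun x y z w => N x y z w + N (J x) (J y) z w + (N' x y z w + N' (J x) (J y) z w) := by
      funext x y z w; ring
    rw [h2]
    exact h1
  · have h1 := op_addF h.neg h'.neg
    have h2 : (fun x y z w => N (J x) (J y) z w + N' (J x) (J y) z w -
        (N x y z w + N' x y z w)) =
        fun x y z w => N (J x) (J y) z w - N x y z w + (N' (J x) (J y) z w - N' x y z w) := by
      funext x y z w; ring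
    rw [h2]
    exact h1

theorem KahlerNonneg.split {P : V → V → V → V → ℝ} (h : KahlerNonneg J P) : JSplit J P := by
  refine ⟨h.curv, fun x y z w => ?_, ?_, ?_⟩
  · rw [h.kahler, ← h.curv.pair, h.kahler, h.curv.pair]
  · simp only [h.kahler]
    exact op_addF h.op h.op
  · simp only [h.kahler, sub_self]
    intro n x y
    simp

theorem SemiData.herm (hJ : ∀ x, J (J x) = -x) {a b : ℕ} {h : Fin a → V → V → ℝ}
    {A : Fin b → V → V → ℝ} {P T : V → V → V → V → ℝ} (H : SemiData J h A P T) :
    HermData J h (fun (_ : Fin 0) _ _ => 0)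
      (fun x y z w => P x y z w + ∑ l, skewCurv (A l) x y z w) T := by
  obtain ⟨hh, hA, hP, hT⟩ := H
  refine ⟨fun k => ⟨(hh k).1, (hh k).2.1⟩, fun l => l.elim0,
    hP.split.add (JSplit.sum fun l => (hA l).split hJ), fun x y z w => ?_⟩
  rw [hT]
  simp only [Finset.univ_eq_empty, Finset.sum_empty]
  ring

theorem SemiData.sec {a b : ℕ} {h : Fin a → V → V → ℝ}
    {A : Fin b → V → V → ℝ} {P T : V → V → V → V → ℝ} (H : SemiData J h A P T) (x y : V) :
    0 ≤ T x y x y := by
  obtain ⟨hh, hA, hP, hT⟩ := H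
  rw [hT]
  have h1 : 0 ≤ P x y x y := by
    have := hP.op 1 (fun _ => x) (fun _ => y)
    simpa using this
  have h2 : 0 ≤ ∑ k, knSq (h k) x y x y := by
    refine Finset.sum_nonneg fun k _ => ?_
    have := knSq_op (hh k).1 (hh k).2.2 1 (fun _ => x) (fun _ => y)
    simpa using this
  have h3 : 0 ≤ ∑ l, skewCurv (A l) x y x y := by
    refine Finset.sum_nonneg fun l _ => ?_
    have e1 : A l x x = 0 := by
      have := (hA l).anti x x
      linarith
    have e2 := (hA l).anti x y
    simp only [skewCurv, e1, e2]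
    nlinarith [sq_nonneg (A l x y)]
  linarith

end oneone

section semi

variable {J : V →ₗ[ℝ] V}

/-- positive definite forms give positive sectional curvatures -/
theorem SemiData.sec_pos {a b : ℕ} {h : Fin a → V → V → ℝ}
    {A : Fin b → V → V → ℝ} {P T : V → V → V → V → ℝ} (H : SemiData J h A P T)
    (hk : ∃ k, ∀ x, x ≠ 0 → 0 < h k x x) {x y : V} (hxy : LinearIndependent ℝ ![x, y]) :
    0 < T x y x y := by
  obtain ⟨k, hk⟩ := hk
  obtain ⟨hh, hA, hP, hT⟩ := H
  rw [hT]
  have h1 : 0 ≤ P x y x y := by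
    have := hP.op 1 (fun _ => x) (fun _ => y)
    simpa using this
  have h0 : ∀ k, 0 ≤ knSq (h k) x y x y := by
    intro k
    have := knSq_op (hh k).1 (hh k).2.2 1 (fun _ => x) (fun _ => y)
    simpa using this
  have h2 : 0 < knSq (h k) x y x y := by
    refine lt_of_le_of_ne (h0 k) fun h3 => ?_
    have hs := (hh k).1
    have hx : x ≠ 0 := hxy.ne_zero 0
    have hxx := hk x hx
    -- the vector h(x,x) y - h(x,y) x
    have hne : h k x x • y - h k x y • x ≠ 0 := by
      intro h4
      rw [LinearIndependent.pair_iff] at hxy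
      have h5 := hxy (-(h k x y)) (h k x x) (by rw [← h4]; module)
      exact hxx.ne' h5.2
    have h6 := hk _ hne
    have h7 : h k (h k x x • y - h k x y • x) (h k x x • y - h k x y • x) =
        h k x x * (h k x x * h k y y - h k x y * h k y x) := by
      have e1 : h k x x • y - h k x y • x = h k x x • y + (-(h k x y)) • x := by module
      have a2 : ∀ u v v', h k u (v + v') = h k u v + h k u v' := fun u v v' => by
        rw [← hs.symm u (v + v'), hs.add, hs.symm u v, hs.symm u v']
      have s2 : ∀ (t : ℝ) u v, h k u (t • v) = t * h k u v := fun t u v => by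
        rw [← hs.symm u (t • v), hs.smul, hs.symm u v]
      rw [e1]
      simp only [hs.add, hs.smul, a2, s2]
      have := hs.symm x y
      rw [this]
      ring
    rw [h7] at h6
    have h8 : h k x x * h k y y - h k x y * h k y x = 0 := h3.symm
    rw [h8, mul_zero] at h6
    exact lt_irrefl _ h6
  have h2' : 0 < ∑ k, knSq (h k) x y x y :=
    Finset.sum_pos' (fun k _ => h0 k) ⟨k, Finset.mem_univ _, h2⟩
  have h3 : 0 ≤ ∑ l, skewCurv (A l) x y x y := by
    refine Finset.sum_nonneg fun l _ => ?_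
    have e1 : A l x x = 0 := by
      have := (hA l).anti x x
      linarith
    have e2 := (hA l).anti x y
    simp only [skewCurv, e1, e2]
    nlinarith [sq_nonneg (A l x y)]
  linarith

end semi

section gray

variable {J : V →ₗ[ℝ] V}

theorem GraySplit.herm (hJi : ∀ x y, inner ℝ (J x) (J y) = inner ℝ x y) {κ : ℝ} (hκ : 0 ≤ κ)
    {T : V → V → V → V → ℝ} (h : GraySplit J κ T) :
    HermData J (fun (_ : Fin 1) x y => √κ * inner ℝ x y) (fun (_ : Fin 0) _ _ => 0)
      (fun x y z w => T x y z w - κ * unitT x y z w) T := by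
  have hs : SymForm (fun x y : V => √κ * inner ℝ x y) :=
    { add := fun x x' y => by rw [inner_add_left]; ring
      smul := fun t x y => by rw [inner_smul_left, conj_trivial]; ring
      symm := fun x y => by rw [real_inner_comm] }
  have hkn : ∀ x y z w : V, knSq (fun x y : V => √κ * inner ℝ x y) x y z w =
      κ * unitT x y z w := by
    intro x y z w
    simp only [knSq, unitT]
    have h1 : √κ * √κ = κ := Real.mul_self_sqrt hκ
    linear_combination (inner ℝ x z * inner ℝ y w - inner ℝ x w * inner ℝ y z) * h1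
  refine ⟨fun _ => ⟨hs, fun x y => by beta_reduce; rw [hJi]⟩, fun l => l.elim0, ⟨?_, ?_, ?_, ?_⟩, ?_⟩
  · exact Pool.Agent.Y519.HB.sub_curv h.curv (unit_curv κ)
  · intro x y z w
    rw [h.inv]
    simp only [unitT, hJi]
  · have h1 := h.pos
    have h2 : (fun x y z w : V => T x y z w - κ * unitT x y z w +
        (T (J x) (J y) z w - κ * unitT (J x) (J y) z w)) = fun x y z w =>
        T x y z w + T (J x) (J y) z w - κ * (unitT x y z w + unitT (J x) (J y) z w) := by
      funext x y z w; ring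
    rw [h2]
    exact h1
  · have h1 := h.neg
    have h2 : (fun x y z w : V => T (J x) (J y) z w - κ * unitT (J x) (J y) z w -
        (T x y z w - κ * unitT x y z w)) = fun x y z w =>
        κ * (unitT x y z w - unitT (J x) (J y) z w) - (T x y z w - T (J x) (J y) z w) := by
      funext x y z w; ring
    rw [h2]
    exact h1
  · intro x y z w
    simp only [hkn, Finset.univ_unique, Finset.sum_singleton, Finset.univ_eq_empty,
      Finset.sum_empty]
    ring

theorem GraySplit.cls (hJ : ∀ x, J (J x) = -x)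
    (hJi : ∀ x y, inner ℝ (J x) (J y) = inner ℝ x y) {κ : ℝ} (hκ : 0 ≤ κ)
    {T : V → V → V → V → ℝ} (h : GraySplit J κ T) :
    HermClass T ∧ (0 < κ → HermClassPos T) := by
  refine ⟨⟨J, hJ, _, _, _, _, _, h.herm hJi hκ⟩, fun hk => ⟨J, hJ, _, _, _, _, _, h.herm hJi hκ,
    0, fun x hx => ?_⟩⟩
  have h1 := hx x
  beta_reduce at h1
  rcases mul_eq_zero.1 h1 with h2 | h2
  · exact absurd h2 (Real.sqrt_pos.2 hk).ne'
  · exact inner_self_eq_zero.1 h2

theorem SemiData.cls (hJ : ∀ x, J (J x) = -x) {a b : ℕ} {h : Fin a → V → V → ℝ}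
    {A : Fin b → V → V → ℝ} {P T : V → V → V → V → ℝ} (H : SemiData J h A P T) :
    HermClass T ∧ ((∃ k, ∀ x, x ≠ 0 → 0 < h k x x) → HermClassPos T) := by
  refine ⟨⟨J, hJ, _, _, _, _, _, H.herm hJ⟩, fun ⟨k, hk⟩ => ⟨J, hJ, _, _, _, _, _, H.herm hJ,
    k, fun x hx => ?_⟩⟩
  by_contra h0
  exact (hk x h0).ne' (hx x)

end gray

section field

theorem class_sign (e : OrthonormalBasis (Fin m × Bool) ℝ V) {R : V → V → V → V → ℝ}
    (h : HermClass (negT R)) : 0 ≤ (-1) ^ m * gbc e R := by
  obtain ⟨J, hJ, h⟩ := h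
  exact herm_sign e hJ h

theorem class_sign_pos (e : OrthonormalBasis (Fin m × Bool) ℝ V) {R : V → V → V → V → ℝ}
    (h : HermClassPos (negT R)) : 0 < (-1) ^ m * gbc e R := by
  obtain ⟨J, hJ, h⟩ := h
  exact herm_sign_pos e hJ h

theorem negT_negT (R : V → V → V → V → ℝ) : negT (negT R) = R := by
  funext x y z w
  simp only [negT, neg_neg]

theorem class_gb (e : OrthonormalBasis (Fin m × Bool) ℝ V) {R : V → V → V → V → ℝ}
    (h : HermClass R) : 0 ≤ gbc e R := by
  rw [← Pool.Agent.Y195.HF.gbc_negT e R]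
  exact class_sign e (by rwa [negT_negT])

theorem class_gb_pos (e : OrthonormalBasis (Fin m × Bool) ℝ V) {R : V → V → V → V → ℝ}
    (h : HermClassPos R) : 0 < gbc e R := by
  rw [← Pool.Agent.Y195.HF.gbc_negT e R]
  exact class_sign_pos e (by rwa [negT_negT])

theorem field_sign {M : Type} [MeasurableSpace M] (μ : Measure M) (K : CurvField m M)
    (h : ∀ p, HermClass (negT (K.R p))) :
    0 ≤ (-1) ^ m * ∫ p, K.gb p ∂μ ∧
      (Integrable K.gb μ → μ {p | HermClassPos (negT (K.R p))} ≠ 0 →
        0 < (-1) ^ m * ∫ p, K.gb p ∂μ) := by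
  have h0 : ∀ p, 0 ≤ (-1) ^ m * K.gb p := fun p => class_sign (K.e p) (h p)
  rw [← integral_const_mul]
  refine ⟨integral_nonneg h0, fun hi hμ => ?_⟩
  rw [integral_pos_iff_support_of_nonneg h0 (hi.const_mul _)]
  refine lt_of_lt_of_le (pos_iff_ne_zero.mpr hμ) (measure_mono fun p hp => ?_)
  exact (class_sign_pos (K.e p) hp).ne'

theorem field_gb {M : Type} [MeasurableSpace M] (μ : Measure M) (K : CurvField m M)
    (h : ∀ p, HermClass (K.R p)) :
    0 ≤ ∫ p, K.gb p ∂μ ∧
      (Integrable K.gb μ → μ {p | HermClassPos (K.R p)} ≠ 0 → 0 < ∫ p, K.gb p ∂μ) := by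
  have h0 : ∀ p, 0 ≤ K.gb p := fun p => class_gb (K.e p) (h p)
  refine ⟨integral_nonneg h0, fun hi hμ => ?_⟩
  rw [integral_pos_iff_support_of_nonneg h0 hi]
  refine lt_of_lt_of_le (pos_iff_ne_zero.mpr hμ) (measure_mono fun p hp => ?_)
  exact (class_gb_pos (K.e p) hp).ne'

end field

end Pool.Agent.Run7.h820.HQ
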