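import Pool.Agent.R770.NS.Main

/-!
# Hermitian squares and split curvature operators: definitions
-/

set_option autoImplicit false

namespace Pool.Agent.Run7.h820.HQ

open Finset Pool.Agent.W666.GB Pool.Agent.W669.HD
open Pool.Agent.R770.NS (SymForm knSq)
open Pool.Agent.Y195.HF (SkewForm skewCurv)

variable {V : Type} [NormedAddCommGroup V] [InnerProductSpace ℝ V]

/-- A curvature tensor `N`, invariant under `J`, whose curvature operator is nonnegative on the
`J`-invariant bivectors and nonpositive on the `J`-anti-invariant bivectors. -/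
structure JSplit (J : V →ₗ[ℝ] V) (N : V → V → V → V → ℝ) : Prop where
  curv : AlgCurv N
  inv : ∀ x y z w, N (J x) (J y) (J z) (J w) = N x y z w
  pos : OpNonneg fun x y z w => N x y z w + N (J x) (J y) z w
  neg : OpNonneg fun x y z w => N (J x) (J y) z w - N x y z w

/-- `T = N + ∑ h_k ∧ h_k - ∑ q_l ∧ q_l` with `J`-invariant symmetric forms `h_k` (of any
signature), symmetric forms `q_l` which change their sign under `J`, and `N` split by `J`. -/
def HermData (J : V →ₗ[ℝ] V) {a b : ℕ} (h : Fin a → V → V → ℝ) (q : Fin b → V → V → ℝ)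
    (N T : V → V → V → V → ℝ) : Prop :=
  (∀ k, SymForm (h k) ∧ ∀ x y, h k (J x) (J y) = h k x y) ∧
    (∀ l, SymForm (q l) ∧ ∀ x y, q l (J x) (J y) = -q l x y) ∧ JSplit J N ∧
    ∀ x y z w, T x y z w = N x y z w + ∑ k, knSq (h k) x y z w - ∑ l, knSq (q l) x y z w

/-- The class of the complex structure `J`. -/
def HermType (J : V →ₗ[ℝ] V) (T : V → V → V → V → ℝ) : Prop :=
  ∃ (a b : ℕ) (h : Fin a → V → V → ℝ) (q : Fin b → V → V → ℝ) (N : V → V → V → V → ℝ),
    HermData J h q N T

/-- The class of the complex structure `J`, with one nondegenerate form `h_k`. -/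
def HermTypePos (J : V →ₗ[ℝ] V) (T : V → V → V → V → ℝ) : Prop :=
  ∃ (a b : ℕ) (h : Fin a → V → V → ℝ) (q : Fin b → V → V → ℝ) (N : V → V → V → V → ℝ),
    HermData J h q N T ∧ ∃ k, ∀ x, (∀ y, h k x y = 0) → x = 0

/-- Positive semidefinite forms of type `(1,1)`. -/
structure PosOneOne (J : V →ₗ[ℝ] V) (A : V → V → ℝ) : Prop extends SkewForm A where
  inv : ∀ x y, A (J x) (J y) = A x y
  nonneg : ∀ x, 0 ≤ A x (J x)

/-- curvature tensors of Kähler type with nonnegative curvature operator -/
structure KahlerNonneg (J : V →ₗ[ℝ] V) (P : V → V → V → V → ℝ) : Prop where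
  curv : AlgCurv P
  kahler : ∀ x y z w, P (J x) (J y) z w = P x y z w
  op : OpNonneg P

/-- `T = P + ∑ h_k ∧ h_k + ∑ skewCurv A_l`: `P` of Kähler type with nonnegative curvature operator,
`h_k` positive semidefinite Hermitian forms, `A_l` positive semidefinite forms of type `(1,1)`,
any number of each. -/
def SemiData (J : V →ₗ[ℝ] V) {a b : ℕ} (h : Fin a → V → V → ℝ) (A : Fin b → V → V → ℝ)
    (P T : V → V → V → V → ℝ) : Prop :=
  (∀ k, SymForm (h k) ∧ (∀ x y, h k (J x) (J y) = h k x y) ∧ ∀ x, 0 ≤ h k x x) ∧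
    (∀ l, PosOneOne J (A l)) ∧ KahlerNonneg J P ∧
    ∀ x y z w, T x y z w = P x y z w + ∑ k, knSq (h k) x y z w + ∑ l, skewCurv (A l) x y z w

/-- the class at a point, for some complex structure -/
def HermClass (T : V → V → V → V → ℝ) : Prop :=
  ∃ J : V →ₗ[ℝ] V, (∀ x, J (J x) = -x) ∧ HermType J T

/-- the class at a point, with a nondegenerate form -/
def HermClassPos (T : V → V → V → V → ℝ) : Prop :=
  ∃ J : V →ₗ[ℝ] V, (∀ x, J (J x) = -x) ∧ HermTypePos J T

/-- Gray's identity `T(Jx,Jy,Jz,Jw) = T(x,y,z,w)` and a level `κ`: the form `T` on bivectors is at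
least `κ` on the `J`-invariant bivectors and at most `κ` on the `J`-anti-invariant ones. -/
structure GraySplit (J : V →ₗ[ℝ] V) (κ : ℝ) (T : V → V → V → V → ℝ) : Prop where
  curv : AlgCurv T
  inv : ∀ x y z w, T (J x) (J y) (J z) (J w) = T x y z w
  pos : OpNonneg fun x y z w =>
    T x y z w + T (J x) (J y) z w - κ * (unitT x y z w + unitT (J x) (J y) z w)
  neg : OpNonneg fun x y z w =>
    κ * (unitT x y z w - unitT (J x) (J y) z w) - (T x y z w - T (J x) (J y) z w)

end Pool.Agent.Run7.h820.HQ
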