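import Mathlib

/-!
# Determinants of quaternionic endomorphisms are nonnegative
-/

set_option autoImplicit false

namespace Pool.Agent.Run7.h820.HQ

open Module

/-- **The Study determinant is nonnegative.** A complex linear endomorphism which commutes with a
conjugate linear map `j` with `j² = -1` has a nonnegative real determinant. -/
theorem study (n : ℕ) : ∀ (E : Type) [AddCommGroup E] [Module ℂ E] [FiniteDimensional ℂ E]
    (j : E →ₛₗ[starRingEnd ℂ] E) (f : E →ₗ[ℂ] E), finrank ℂ E = n → (∀ v, j (j v) = -v) →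
    (∀ v, f (j v) = j (f v)) → ∃ r : ℝ, 0 ≤ r ∧ LinearMap.det f = (r : ℂ) := by
  induction n using Nat.strong_induction_on with
  | _ n ih =>
  intro E _ _ _ j f hn hj hf
  rcases Nat.eq_zero_or_pos n with h0 | h0
  · refine ⟨1, zero_le_one, ?_⟩
    rw [LinearMap.det_eq_one_of_finrank_eq_zero (by rw [hn, h0])]
    norm_num
  have hnt : Nontrivial E := Module.nontrivial_of_finrank_pos (R := ℂ) (by rw [hn]; exact h0)
  obtain ⟨μ, hμ⟩ := Module.End.exists_eigenvalue f
  obtain ⟨v, hv⟩ := hμ.exists_hasEigenvector
  have hv0 : v ≠ 0 := hv.2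
  have hfv : f v = μ • v := hv.apply_eq_smul
  have hfj : f (j v) = (starRingEnd ℂ μ) • j v := by
    rw [hf, hfv, LinearMap.map_smulₛₗ]
  have hli : LinearIndependent ℂ ![v, j v] := by
    rw [LinearIndependent.pair_iff]
    intro s t hst
    have h1 : j (s • v + t • j v) = 0 := by rw [hst, map_zero]
    rw [map_add, LinearMap.map_smulₛₗ, LinearMap.map_smulₛₗ, hj] at h1
    -- conj s • j v - conj t • v = 0
    have h2 : (starRingEnd ℂ s * s + starRingEnd ℂ t * t) • v = 0 := by
      have e1 : (starRingEnd ℂ s) • (s • v + t • j v) = 0 := by rw [hst, smul_zero]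
      have e2 : t • ((starRingEnd ℂ s) • j v + (starRingEnd ℂ t) • -v) = 0 := by
        rw [h1, smul_zero]
      have e3 : (starRingEnd ℂ s * s + starRingEnd ℂ t * t) • v =
          (starRingEnd ℂ s) • (s • v + t • j v) -
            t • ((starRingEnd ℂ s) • j v + (starRingEnd ℂ t) • -v) := by
        module
      rw [e3, e1, e2, sub_zero]
    have h3 : starRingEnd ℂ s * s + starRingEnd ℂ t * t = 0 := by
      rcases smul_eq_zero.1 h2 with h | h
      · exact h
      · exact absurd h hv0
    have h4 : ((Complex.normSq s + Complex.normSq t : ℝ) : ℂ) = 0 := by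
      rw [Complex.ofReal_add, Complex.normSq_eq_conj_mul_self, Complex.normSq_eq_conj_mul_self]
      exact h3
    have h5 : Complex.normSq s + Complex.normSq t = 0 := by exact_mod_cast h4
    have hs := Complex.normSq_nonneg s
    have ht := Complex.normSq_nonneg t
    exact ⟨Complex.normSq_eq_zero.1 (by linarith), Complex.normSq_eq_zero.1 (by linarith)⟩
  set U : Submodule ℂ E := Submodule.span ℂ (Set.range ![v, j v]) with hU
  have hvU : v ∈ U := Submodule.subset_span ⟨0, rfl⟩
  have hjU : j v ∈ U := Submodule.subset_span ⟨1, rfl⟩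
  let b : Basis (Fin 2) ℂ U := Basis.span hli
  have hb0 : (b 0 : E) = v := congrArg Subtype.val (Basis.span_apply hli 0)
  have hb1 : (b 1 : E) = j v := congrArg Subtype.val (Basis.span_apply hli 1)
  have hfU : U ≤ U.comap f := by
    rw [hU, Submodule.span_le]
    rintro _ ⟨i, rfl⟩
    fin_cases i
    · change f v ∈ U
      rw [hfv]; exact U.smul_mem _ hvU
    · change f (j v) ∈ U
      rw [hfj]; exact U.smul_mem _ hjU
  have hjjU : U ≤ U.comap j := by
    rw [hU, Submodule.span_le]
    rintro _ ⟨i, rfl⟩
    fin_cases i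
    · change j v ∈ U
      exact hjU
    · change j (j v) ∈ U
      rw [hj]; exact U.neg_mem hvU
  have hfin : finrank ℂ U = 2 := by
    rw [finrank_eq_card_basis b, Fintype.card_fin]
  have hquot : finrank ℂ (E ⧸ U) = n - 2 := by
    have h1 := U.finrank_quotient_add_finrank
    rw [hfin, hn] at h1
    omega
  have hlt : n - 2 < n := by
    omega
  obtain ⟨r, hr0, hr⟩ := ih (n - 2) hlt (E ⧸ U) (U.mapQ U j hjjU) (U.mapQ U f hfU) hquot
    (by
      intro q
      obtain ⟨x, rfl⟩ := U.mkQ_surjective q
      simp only [Submodule.mkQ_apply, Submodule.mapQ_apply, hj]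
      rfl)
    (by
      intro q
      obtain ⟨x, rfl⟩ := U.mkQ_surjective q
      simp only [Submodule.mkQ_apply, Submodule.mapQ_apply, hf])
  have hdet : LinearMap.det (f.restrict hfU) = ((Complex.normSq μ : ℝ) : ℂ) := by
    rw [← LinearMap.det_toMatrix b]
    have e0 : f.restrict hfU (b 0) = μ • b 0 := by
      apply Subtype.ext
      rw [LinearMap.coe_restrict_apply, Submodule.coe_smul, hb0, hfv]
    have e1 : f.restrict hfU (b 1) = (starRingEnd ℂ μ) • b 1 := by
      apply Subtype.ext
      rw [LinearMap.coe_restrict_apply, Submodule.coe_smul, hb1, hfj]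
    rw [Matrix.det_fin_two]
    simp only [LinearMap.toMatrix_apply, e0, e1, map_smul, Basis.repr_self, Finsupp.smul_apply,
      Finsupp.single_apply, smul_eq_mul]
    simp [Complex.normSq_eq_conj_mul_self, mul_comm]
  refine ⟨Complex.normSq μ * r, mul_nonneg (Complex.normSq_nonneg _) hr0, ?_⟩
  rw [LinearMap.det_eq_det_mul_det U f hfU, hdet, hr]
  push_cast
  ring

section matrix

variable {ι : Type} [Fintype ι] [DecidableEq ι]

/-- **Matrices of quaternionic type.** `J` is a real matrix with `J² = -1`; if
`Jᵀ M J` is the complex conjugate of `M`, then `det M` is real and nonnegative. -/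
theorem mat_study (M : Matrix ι ι ℂ) (J : Matrix ι ι ℝ) (hJ : J * J = -1)
    (hM : (J.map (Complex.ofReal)).transpose * M * J.map (Complex.ofReal) =
      M.map (starRingEnd ℂ)) :
    ∃ r : ℝ, 0 ≤ r ∧ M.det = (r : ℂ) := by
  set G : Matrix ι ι ℝ := 1 + J.transpose * J with hG
  have hGpd : G.PosDef := by
    have h1 : (J.transpose * J).PosSemidef := by
      have := Matrix.posSemidef_conjTranspose_mul_self J
      rwa [Matrix.conjTranspose_eq_transpose_of_trivial] at this
    exact Matrix.PosDef.one.add_posSemidef h1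
  have hGdet : 0 < G.det := hGpd.det_pos
  have hGJ : J.transpose * G * J = G := by
    have h2 : J.transpose * J.transpose = -1 := by
      rw [← Matrix.transpose_mul, hJ, Matrix.transpose_neg, Matrix.transpose_one]
    calc J.transpose * G * J = J.transpose * J + (J.transpose * J.transpose) * (J * J) := by
          rw [hG]
          simp only [Matrix.mul_add, Matrix.add_mul, Matrix.mul_one, Matrix.mul_assoc]
      _ = G := by
          rw [h2, hJ, hG]
          simp [add_comm]
  have hGu : IsUnit G.det := isUnit_iff_ne_zero.2 hGdet.ne'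
  have hinv : J * G⁻¹ * J.transpose = G⁻¹ := by
    have hG1 : G * G⁻¹ = 1 := Matrix.mul_nonsing_inv _ hGu
    have h2 : J.transpose * J.transpose = -1 := by
      rw [← Matrix.transpose_mul, hJ, Matrix.transpose_neg, Matrix.transpose_one]
    -- G * (J G⁻¹ Jᵀ) = 1
    have h3 : G * (J * G⁻¹ * J.transpose) = 1 := by
      have h4 : G * J = -(J.transpose * G) := by
        have h5 : J.transpose * (J.transpose * G * J) = J.transpose * G := by rw [hGJ]
        have h6 : J.transpose * (J.transpose * G * J) = -(G * J) := by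
          calc J.transpose * (J.transpose * G * J) =
              (J.transpose * J.transpose) * G * J := by simp only [Matrix.mul_assoc]
            _ = -(G * J) := by rw [h2]; simp
        rw [← h5, h6, neg_neg]
      calc G * (J * G⁻¹ * J.transpose) = (G * J) * G⁻¹ * J.transpose := by
            simp only [Matrix.mul_assoc]
        _ = -(J.transpose * (G * G⁻¹) * J.transpose) := by
            rw [h4]; simp only [Matrix.neg_mul, Matrix.mul_assoc]
        _ = 1 := by rw [hG1, Matrix.mul_one, h2, neg_neg]
    have h7 := congrArg (fun X => G⁻¹ * X) h3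
    simp only [← Matrix.mul_assoc, Matrix.nonsing_inv_mul _ hGu, Matrix.one_mul,
      Matrix.mul_one] at h7
    rw [Matrix.mul_assoc] at h7
    rw [Matrix.mul_assoc]
    exact h7
  set Jc : Matrix ι ι ℂ := J.map (Complex.ofReal) with hJc
  set Gi : Matrix ι ι ℂ := (G⁻¹).map (Complex.ofReal) with hGi
  have hmapmul : ∀ A B : Matrix ι ι ℝ, (A * B).map (Complex.ofReal) =
      A.map (Complex.ofReal) * B.map (Complex.ofReal) := by
    intro A B
    exact Matrix.map_mul (f := Complex.ofRealHom)
  have hinvc : Jc * Gi * Jc.transpose = Gi := by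
    rw [hJc, hGi, ← hmapmul, ← Matrix.transpose_map, ← hmapmul, hinv]
  have hJcJc : Jc * Jc = -1 := by
    rw [hJc, ← hmapmul, hJ]
    ext a c
    simp [Matrix.map_apply, Matrix.neg_apply, Matrix.one_apply]
    split_ifs <;> simp
  -- the conjugate linear map
  let j : (ι → ℂ) →ₛₗ[starRingEnd ℂ] (ι → ℂ) :=
    { toFun := fun v => Jc.mulVec (fun i => starRingEnd ℂ (v i))
      map_add' := by
        intro v w
        rw [← Matrix.mulVec_add]
        congr 1
        funext i
        simp
      map_smul' := by
        intro c v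
        rw [← Matrix.mulVec_smul]
        congr 1
        funext i
        simp }
  have hjapp : ∀ v, j v = Jc.mulVec (fun i => starRingEnd ℂ (v i)) := fun v => rfl
  have hconj : ∀ (A : Matrix ι ι ℂ) (v : ι → ℂ), (fun i => starRingEnd ℂ ((A.mulVec v) i)) =
      (A.map (starRingEnd ℂ)).mulVec (fun i => starRingEnd ℂ (v i)) := by
    intro A v
    funext i
    simp [Matrix.mulVec, dotProduct, map_sum]
  have hJcc : Jc.map (starRingEnd ℂ) = Jc := by
    ext a c
    simp [hJc]
  have hGic : Gi.map (starRingEnd ℂ) = Gi := by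
    ext a c
    simp [hGi]
  have hj2 : ∀ v, j (j v) = -v := by
    intro v
    rw [hjapp, hjapp, hconj, hJcc, Matrix.mulVec_mulVec, hJcJc]
    funext i
    simp [Matrix.neg_mulVec]
  obtain ⟨r, hr0, hr⟩ := study (finrank ℂ (ι → ℂ)) (ι → ℂ) j (Matrix.toLin' (Gi * M)) rfl hj2
    (by
      intro v
      rw [Matrix.toLin'_apply, Matrix.toLin'_apply, hjapp, hjapp, hconj, Matrix.mulVec_mulVec,
        Matrix.mulVec_mulVec]
      congr 1
      have h1 : (Gi * M).map (starRingEnd ℂ) = Gi * M.map (starRingEnd ℂ) := by
        rw [Matrix.map_mul, hGic]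
      rw [h1, ← hM]
      calc Gi * M * Jc = (Jc * Gi * Jc.transpose) * M * Jc := by rw [hinvc]
        _ = Jc * (Gi * (Jc.transpose * M * Jc)) := by simp only [Matrix.mul_assoc])
  rw [LinearMap.det_toLin', Matrix.det_mul] at hr
  have hGid : Gi.det = ((G.det : ℝ) : ℂ)⁻¹ := by
    have h1 : Gi.det = (((G⁻¹).det : ℝ) : ℂ) := by
      have := (RingHom.map_det Complex.ofRealHom (G⁻¹))
      rw [hGi]
      exact this.symm
    rw [h1, Matrix.det_nonsing_inv, Ring.inverse_eq_inv']
    push_cast
    rfl
  refine ⟨G.det * r, mul_nonneg hGdet.le hr0, ?_⟩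
  rw [hGid] at hr
  have hne : ((G.det : ℝ) : ℂ) ≠ 0 := by exact_mod_cast hGdet.ne'
  push_cast
  rw [← hr]
  field_simp

end matrix

end Pool.Agent.Run7.h820.HQ
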