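import Pool.Agent.N509.HN.Ve
import Pool.Agent.Run7.h820.HQ.Det

/-!
# The sign of the integrand for the quaternionic class
-/

set_option autoImplicit false

namespace Pool.Agent.Run7.h820.HQ

open Finset MeasureTheory Pool.Agent.W666.GB Pool.Agent.Y489.SM

section wick

variable {K : Type} [Fintype K] [DecidableEq K] {J : Type} [Fintype J] [DecidableEq J]

/-- a form which is nonnegative everywhere and positive somewhere has positive Gaussian mean -/
theorem wick_pos (F : (J → K) → ℝ)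
    (h : ∀ ζ : K → ℝ, 0 ≤ ∑ β : J → K, (∏ j, ζ (β j)) * F β) (ζ₀ : K → ℝ)
    (h0 : 0 < ∑ β : J → K, (∏ j, ζ₀ (β j)) * F β) :
    0 < ∑ β : J → K, wick β * F β := by
  have h2 : ∀ ζ : K → ℝ, (∑ β : J → K, (∏ j, ζ (β j)) * F β) * ∏ k, wt (ζ k) =
      ∑ β : J → K, ((∏ j, ζ (β j)) * ∏ k, wt (ζ k)) * F β := by
    intro ζ
    rw [Finset.sum_mul]
    exact Finset.sum_congr rfl fun β _ => by ring
  have hint : Integrable fun ζ : K → ℝ =>
      (∑ β : J → K, (∏ j, ζ (β j)) * F β) * ∏ k, wt (ζ k) := by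
    simp only [h2]
    exact integrable_finsetSum _ fun β _ => (integrable_monomial β).mul_const _
  have h1 : ∑ β : J → K, wick β * F β =
      ∫ ζ : K → ℝ, (∑ β : J → K, (∏ j, ζ (β j)) * F β) * ∏ k, wt (ζ k) := by
    simp only [h2]
    rw [integral_finsetSum _ fun β _ => (integrable_monomial β).mul_const _]
    refine Finset.sum_congr rfl fun β _ => ?_
    rw [integral_mul_const, integral_monomial]
  have hnn : ∀ ζ : K → ℝ, 0 ≤ (∑ β : J → K, (∏ j, ζ (β j)) * F β) * ∏ k, wt (ζ k) :=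
    fun ζ => mul_nonneg (h ζ) (Finset.prod_nonneg fun k _ => (wt_pos _).le)
  have hcont : Continuous fun ζ : K → ℝ =>
      (∑ β : J → K, (∏ j, ζ (β j)) * F β) * ∏ k, wt (ζ k) := by
    unfold wt
    fun_prop
  rw [h1, integral_pos_iff_support_of_nonneg hnn hint]
  refine (hcont.isOpen_support).measure_pos volume ⟨ζ₀, ?_⟩
  rw [Function.mem_support]
  exact (mul_pos h0 (Finset.prod_pos fun k _ => wt_pos _)).ne'

theorem pairs_pos (m : ℕ) (F : (Fin m × Bool → K) → ℝ) (hF : Sy F)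
    (h : ∀ ζ : K → ℝ, 0 ≤ ∑ β : Fin m × Bool → K, (∏ j, ζ (β j)) * F β) (ζ₀ : K → ℝ)
    (h0 : 0 < ∑ β : Fin m × Bool → K, (∏ j, ζ₀ (β j)) * F β) :
    0 < ∑ α : Fin m → K, F (fun x => α x.1) := by
  obtain ⟨C, hC, hL⟩ := LW_pairs (K := K) m
  have h1 := wick_pos F h ζ₀ h0
  have h2 := hL F hF
  unfold LW at h2
  rw [h2] at h1
  exact (pos_iff_pos_of_mul_pos h1).1 hC

end wick

section yf

variable {K : Type} [Fintype K] [DecidableEq K] {m : ℕ}

omit [DecidableEq K] in
theorem diag_eq (ω : K → ℂ) (w : K → ℝ) (hw : ∀ k, ω k ^ 2 = (w k : ℂ))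
    (B : K → Fin m × Bool → Fin m × Bool → ℝ) (s : ℝ) :
    ∑ α : Fin m → K, s * FF ω B (fun x => α x.1) =
      s * Yf (fun a b c d => ∑ k, w k * (B k a b * B k c d)) := by
  rw [Yf_sum, Finset.mul_sum]
  refine Finset.sum_congr rfl fun α _ => ?_
  congr 1
  unfold FF
  congr 1
  rw [Fintype.prod_prod_type]
  have h9 : ∀ b : Fin m, ∏ _y : Bool, ω (α b) = (w (α b) : ℂ) := by
    intro b
    rw [Fintype.prod_bool, ← hw]
    ring
  simp only [h9, ← Complex.ofReal_prod, Complex.ofReal_re]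

omit [DecidableEq K] in
theorem poly_eq (ω : K → ℂ) (B : K → Fin m × Bool → Fin m × Bool → ℝ) (s : ℝ) (ζ : K → ℝ) :
    ∑ β : Fin m × Bool → K, (∏ j, ζ (β j)) * (s * FF ω B β) =
      ((Fintype.card (Fin m × Bool)).factorial : ℝ) *
      (s * (Matrix.det (Matrix.of fun i j => ∑ k, (ζ k : ℂ) * ω k * (B k i j : ℂ))).re) := by
  have h1 := FF_poly ω B ζ
  have h2 : ∑ β : Fin m × Bool → K, (∏ j, ζ (β j)) * (s * FF ω B β) =
      s * ∑ β : Fin m × Bool → K, (∏ j, ζ (β j)) * FF ω B β := by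
    rw [Finset.mul_sum]
    exact Finset.sum_congr rfl fun β _ => by ring
  rw [h2, h1]
  ring

/-- the sign of the double alternating form from the sign of the determinants -/
theorem Yf_sign (ω : K → ℂ) (w : K → ℝ) (hw : ∀ k, ω k ^ 2 = (w k : ℂ))
    (B : K → Fin m × Bool → Fin m × Bool → ℝ) (s : ℝ)
    (H : ∀ ζ : K → ℝ, 0 ≤ s *
      (Matrix.det (Matrix.of fun i j => ∑ k, (ζ k : ℂ) * ω k * (B k i j : ℂ))).re) :
    0 ≤ s * Yf (fun a b c d => ∑ k, w k * (B k a b * B k c d)) := by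
  rw [← diag_eq ω w hw B s]
  refine pairs_nonneg m (fun β => s * FF ω B β) (fun π β => ?_) fun ζ => ?_
  · beta_reduce
    rw [FF_sy ω B π β]
  · rw [poly_eq]
    exact mul_nonneg (Nat.cast_nonneg _) (H ζ)

theorem Yf_sign_pos (ω : K → ℂ) (w : K → ℝ) (hw : ∀ k, ω k ^ 2 = (w k : ℂ))
    (B : K → Fin m × Bool → Fin m × Bool → ℝ) (s : ℝ)
    (H : ∀ ζ : K → ℝ, 0 ≤ s *
      (Matrix.det (Matrix.of fun i j => ∑ k, (ζ k : ℂ) * ω k * (B k i j : ℂ))).re)
    (ζ₀ : K → ℝ) (h0 : 0 < s *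
      (Matrix.det (Matrix.of fun i j => ∑ k, (ζ₀ k : ℂ) * ω k * (B k i j : ℂ))).re) :
    0 < s * Yf (fun a b c d => ∑ k, w k * (B k a b * B k c d)) := by
  rw [← diag_eq ω w hw B s]
  refine pairs_pos m (fun β => s * FF ω B β) (fun π β => ?_) (fun ζ => ?_) ζ₀ ?_
  · beta_reduce
    rw [FF_sy ω B π β]
  · rw [poly_eq]
    exact mul_nonneg (Nat.cast_nonneg _) (H ζ)
  · rw [poly_eq]
    exact mul_pos (Nat.cast_pos.2 (Nat.factorial_pos _)) h0

end yf

section quat

variable {V : Type} [NormedAddCommGroup V] [InnerProductSpace ℝ V] {m : ℕ}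

/-- the square root, real or imaginary -/
noncomputable def om (t : ℝ) : ℂ := if 0 ≤ t then (√t : ℂ) else Complex.I * (√(-t) : ℂ)

theorem om_sq (t : ℝ) : om t ^ 2 = (t : ℂ) := by
  unfold om
  split_ifs with h
  · rw [← Complex.ofReal_pow, Real.sq_sqrt h]
  · rw [mul_pow, Complex.I_sq, ← Complex.ofReal_pow, Real.sq_sqrt (by linarith)]
    push_cast
    ring

theorem om_conj_nonneg {t : ℝ} (h : 0 ≤ t) : starRingEnd ℂ (om t) = om t := by
  unfold om
  rw [if_pos h, Complex.conj_ofReal]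

theorem om_conj_nonpos {t : ℝ} (h : t ≤ 0) : starRingEnd ℂ (om t) = -om t := by
  unfold om
  split_ifs with h1
  · have : t = 0 := le_antisymm h h1
    subst this
    simp
  · rw [map_mul, Complex.conj_I, Complex.conj_ofReal]
    ring

/-- `T = ∑ w_k (B_k(x,z) B_k(y,u) - B_k(x,u) B_k(y,z))` for bilinear forms `B_k` such that
`B_k(x, S y)` is invariant under `J` if `w_k > 0` and changes its sign under `J` if `w_k < 0`. -/
def GenRep {K : Type} [Fintype K] (J S : V →ₗ[ℝ] V) (w : K → ℝ)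
    (B : K → V →ₗ[ℝ] V →ₗ[ℝ] ℝ) (T : V → V → V → V → ℝ) : Prop :=
  (∀ k, (0 ≤ w k ∧ ∀ x y, B k (J x) (S (J y)) = B k x (S y)) ∨
    (w k ≤ 0 ∧ ∀ x y, B k (J x) (S (J y)) = -B k x (S y))) ∧
  ∀ x y z u, T x y z u = ∑ k, w k * (B k x z * B k y u - B k x u * B k y z)

/-- matrix of an endomorphism in an orthonormal basis -/
noncomputable def mt (e : OrthonormalBasis (Fin m × Bool) ℝ V) (L : V →ₗ[ℝ] V) :
    Matrix (Fin m × Bool) (Fin m × Bool) ℝ :=
  LinearMap.toMatrix e.toBasis e.toBasis L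

theorem mt_apply (e : OrthonormalBasis (Fin m × Bool) ℝ V) (L : V →ₗ[ℝ] V)
    (j : Fin m × Bool) : L (e j) = ∑ i, mt e L i j • e i := by
  have h := e.toBasis.sum_repr (L (e j))
  rw [← h]
  refine Finset.sum_congr rfl fun i _ => ?_
  simp [mt, LinearMap.toMatrix_apply]

theorem det_sign {K : Type} [Fintype K] (e : OrthonormalBasis (Fin m × Bool) ℝ V)
    {J S : V →ₗ[ℝ] V} (hJ : ∀ x, J (J x) = -x) {w : K → ℝ} {B : K → V →ₗ[ℝ] V →ₗ[ℝ] ℝ}
    (hB : ∀ k, (0 ≤ w k ∧ ∀ x y, B k (J x) (S (J y)) = B k x (S y)) ∨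
      (w k ≤ 0 ∧ ∀ x y, B k (J x) (S (J y)) = -B k x (S y))) (ζ : K → ℝ) :
    0 ≤ LinearMap.det S * (Matrix.det (Matrix.of fun i j : Fin m × Bool =>
      ∑ k, (ζ k : ℂ) * om (w k) * (B k (e i) (e j) : ℂ))).re := by
  set M : Matrix (Fin m × Bool) (Fin m × Bool) ℂ := Matrix.of fun i j : Fin m × Bool =>
      ∑ k, (ζ k : ℂ) * om (w k) * (B k (e i) (e j) : ℂ) with hM
  set Sm : Matrix (Fin m × Bool) (Fin m × Bool) ℂ := (mt e S).map (Complex.ofReal) with hSm
  have hJm : mt e J * mt e J = -1 := by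
    unfold mt
    rw [← LinearMap.toMatrix_comp]
    have : J ∘ₗ J = -LinearMap.id := by
      ext x
      simp [hJ]
    rw [this, map_neg, LinearMap.toMatrix_id]
  -- entries
  have hMS : ∀ i j, (M * Sm) i j = ∑ k, (ζ k : ℂ) * om (w k) * (B k (e i) (S (e j)) : ℂ) := by
    intro i j
    rw [Matrix.mul_apply]
    simp only [hM, hSm, Matrix.of_apply, Matrix.map_apply]
    have h1 : ∀ k, (B k (e i) (S (e j)) : ℂ) = ∑ l, (B k (e i) (e l) : ℂ) * (mt e S l j : ℂ) := by
      intro k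
      rw [mt_apply e S j, map_sum]
      push_cast
      refine Finset.sum_congr rfl fun l _ => ?_
      rw [map_smul, smul_eq_mul]
      push_cast
      ring
    simp only [h1, Finset.sum_mul, Finset.mul_sum]
    rw [Finset.sum_comm]
    exact Finset.sum_congr rfl fun k _ => Finset.sum_congr rfl fun l _ => by ring
  have hkey : ((mt e J).map (Complex.ofReal)).transpose * (M * Sm) * (mt e J).map (Complex.ofReal)
      = (M * Sm).map (starRingEnd ℂ) := by
    ext i j
    rw [Matrix.mul_apply, Matrix.map_apply, hMS]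
    simp only [Matrix.mul_apply (M := ((mt e J).map Complex.ofReal).transpose), hMS,
      Matrix.transpose_apply, Matrix.map_apply]
    have h1 : ∀ k, ∑ b, (∑ a, (mt e J a i : ℂ) * (B k (e a) (S (e b)) : ℂ)) * (mt e J b j : ℂ) =
        (B k (J (e i)) (S (J (e j))) : ℂ) := by
      intro k
      rw [mt_apply e J i, mt_apply e J j]
      simp only [map_sum, map_smul, LinearMap.sum_apply, LinearMap.smul_apply, smul_eq_mul]
      push_cast
      simp only [Finset.sum_mul, Finset.mul_sum]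
      refine Finset.sum_congr rfl fun a _ => Finset.sum_congr rfl fun b _ => ?_
      ring
    have h2 : ∑ b, (∑ a, (mt e J a i : ℂ) * ∑ k, (ζ k : ℂ) * om (w k) *
        (B k (e a) (S (e b)) : ℂ)) * (mt e J b j : ℂ) =
        ∑ k, (ζ k : ℂ) * om (w k) * (B k (J (e i)) (S (J (e j))) : ℂ) := by
      simp only [← h1, Finset.mul_sum, Finset.sum_mul]
      rw [Finset.sum_congr rfl fun b _ => Finset.sum_comm, Finset.sum_comm]
      refine Finset.sum_congr rfl fun k _ => Finset.sum_congr rfl fun b _ =>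
        Finset.sum_congr rfl fun a _ => ?_
      ring
    rw [h2, map_sum]
    refine Finset.sum_congr rfl fun k _ => ?_
    rw [map_mul, map_mul, Complex.conj_ofReal, Complex.conj_ofReal]
    rcases hB k with ⟨h3, h4⟩ | ⟨h3, h4⟩
    · rw [om_conj_nonneg h3, h4]
    · rw [om_conj_nonpos h3, h4]
      push_cast
      ring
  obtain ⟨r, hr0, hr⟩ := mat_study (M * Sm) (mt e J) hJm hkey
  rw [Matrix.det_mul] at hr
  have hSd : Sm.det = ((LinearMap.det S : ℝ) : ℂ) := by
    rw [← LinearMap.det_toMatrix e.toBasis S, hSm]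
    exact (RingHom.map_det Complex.ofRealHom (mt e S)).symm
  rw [hSd] at hr
  have h5 : LinearMap.det S * M.det.re = r := by
    have h6 := congrArg Complex.re hr
    rw [Complex.ofReal_re, Complex.re_mul_ofReal] at h6
    rw [← h6]
    ring
  rw [h5]
  exact hr0

theorem const_pos (m : ℕ) : 0 < 1 / ((4 * Real.pi) ^ m * (m.factorial : ℝ)) := by
  have hπ := Real.pi_pos
  positivity

/-- **The sign, general form.** -/
theorem gen_sign {K : Type} [Fintype K] (e : OrthonormalBasis (Fin m × Bool) ℝ V)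
    {R : V → V → V → V → ℝ} {J S : V →ₗ[ℝ] V} (hJ : ∀ x, J (J x) = -x) {w : K → ℝ}
    {B : K → V →ₗ[ℝ] V →ₗ[ℝ] ℝ} (h : GenRep J S w B (fun x y z u => -R x y z u)) :
    0 ≤ LinearMap.det S * ((-1) ^ m * gbc e R) := by
  classical
  rw [Pool.Agent.N509.HN.gbc_of_lift e R
    (fun a b c d => ∑ k, w k * (B k (e a) (e b) * B k (e c) (e d))) (fun i j k l => by
      have h1 := h.2 (e i) (e j) (e k) (e l)
      beta_reduce at h1
      rw [h1, ← Finset.sum_sub_distrib]
      exact Finset.sum_congr rfl fun a _ => by ring)]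
  have h1 := Yf_sign (fun k => om (w k)) w (fun k => om_sq _)
    (fun k i j => B k (e i) (e j)) (LinearMap.det S) (fun ζ => det_sign e hJ h.1 ζ)
  have h2 := mul_nonneg (const_pos m).le h1
  refine h2.trans (le_of_eq ?_)
  ring

/-- **The sign, strict form.** -/
theorem gen_sign_pos {K : Type} [Fintype K] (e : OrthonormalBasis (Fin m × Bool) ℝ V)
    {R : V → V → V → V → ℝ} {J S : V →ₗ[ℝ] V} (hJ : ∀ x, J (J x) = -x) {w : K → ℝ}
    {B : K → V →ₗ[ℝ] V →ₗ[ℝ] ℝ} (h : GenRep J S w B (fun x y z u => -R x y z u))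
    (hS : LinearMap.det S ≠ 0) (k₀ : K) (hw : w k₀ ≠ 0)
    (hdet : (Matrix.of fun i j => B k₀ (e i) (e j)).det ≠ 0) :
    0 < LinearMap.det S * ((-1) ^ m * gbc e R) := by
  classical
  rw [Pool.Agent.N509.HN.gbc_of_lift e R
    (fun a b c d => ∑ k, w k * (B k (e a) (e b) * B k (e c) (e d))) (fun i j k l => by
      have h1 := h.2 (e i) (e j) (e k) (e l)
      beta_reduce at h1
      rw [h1, ← Finset.sum_sub_distrib]
      exact Finset.sum_congr rfl fun a _ => by ring)]
  have hne : LinearMap.det S * (Matrix.det (Matrix.of fun i j : Fin m × Bool =>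
      ∑ k, ((Pi.single k₀ 1 : K → ℝ) k : ℂ) * om (w k) * (B k (e i) (e j) : ℂ))).re ≠ 0 := by
    have h1 : (Matrix.of fun i j : Fin m × Bool =>
        ∑ k, ((Pi.single k₀ 1 : K → ℝ) k : ℂ) * om (w k) * (B k (e i) (e j) : ℂ)) =
        om (w k₀) • ((Matrix.of fun i j => B k₀ (e i) (e j)).map (Complex.ofReal)) := by
      ext i j
      rw [Matrix.of_apply, Finset.sum_eq_single k₀]
      · simp
      · intro k _ hk
        simp [hk]
      · intro hk
        exact absurd (Finset.mem_univ _) hk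
    rw [h1, Matrix.det_smul]
    have h2 : ((Matrix.of fun i j => B k₀ (e i) (e j)).map (Complex.ofReal)).det =
        (((Matrix.of fun i j => B k₀ (e i) (e j)).det : ℝ) : ℂ) :=
      (RingHom.map_det Complex.ofRealHom _).symm
    have hcard : Fintype.card (Fin m × Bool) = 2 * m := by
      rw [Fintype.card_prod, Fintype.card_fin, Fintype.card_bool, mul_comm]
    rw [h2, hcard, pow_mul, om_sq, ← Complex.ofReal_pow, ← Complex.ofReal_mul, Complex.ofReal_re]
    exact mul_ne_zero hS (mul_ne_zero (pow_ne_zero _ hw) hdet)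
  have h1 := Yf_sign_pos (fun k => om (w k)) w (fun k => om_sq _)
    (fun k i j => B k (e i) (e j)) (LinearMap.det S) (fun ζ => det_sign e hJ h.1 ζ)
    (Pi.single k₀ 1) (lt_of_le_of_ne (det_sign e hJ h.1 _) hne.symm)
  have h2 := mul_pos (const_pos m) h1
  refine h2.trans_le (le_of_eq ?_)
  ring

end quat

end Pool.Agent.Run7.h820.HQ
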