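import Pool.Agent.Run7.h820.HQ.Sign
import Pool.Agent.Run7.h820.HQ.Defs
import Pool.Agent.Y195.HF.Posi

/-!
# The class of curvature tensors: Hermitian forms, anti-invariant forms, split operators
-/

set_option autoImplicit false

namespace Pool.Agent.Run7.h820.HQ

open Finset MeasureTheory Pool.Agent.W666.GB Pool.Agent.W669.HD
open Pool.Agent.R770.NS (SymForm knSq)
open Pool.Agent.Y195.HF (SkewForm skewCurv)

variable {V : Type} [NormedAddCommGroup V] [InnerProductSpace ℝ V] {m : ℕ}

section lin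

theorem BiForm.l1 {K : V → V → V → V → ℝ} (h : BiForm K) (y z w : V) :
    IsLinearMap ℝ (fun x => K x y z w) :=
  ⟨fun x x' => h.add x x' y z w, fun t x => h.smul t x y z w⟩

theorem BiForm.l2 {K : V → V → V → V → ℝ} (h : BiForm K) (x z w : V) :
    IsLinearMap ℝ (fun y => K x y z w) := by
  refine ⟨fun y y' => ?_, fun t y => ?_⟩
  · rw [h.anti (y + y') x, h.add, h.anti x y, h.anti x y']; ring
  · rw [h.anti (t • y) x, h.smul, h.anti x y, smul_eq_mul]; ring

theorem BiForm.l3 {K : V → V → V → V → ℝ} (h : BiForm K) (x y w : V) :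
    IsLinearMap ℝ (fun z => K x y z w) := by
  refine ⟨fun z z' => ?_, fun t z => ?_⟩
  · rw [← h.pair x y (z + z') w, h.add, h.pair x y z w, h.pair x y z' w]
  · rw [← h.pair x y (t • z) w, h.smul, h.pair x y z w, smul_eq_mul]

theorem BiForm.l4 {K : V → V → V → V → ℝ} (h : BiForm K) (x y z : V) :
    IsLinearMap ℝ (fun w => K x y z w) := by
  refine ⟨fun w w' => ?_, fun t w => ?_⟩
  · rw [← h.pair x y z (w + w'), ← h.pair x y z w, ← h.pair x y z w', (BiForm.l2 h z x y).map_add]
  · rw [← h.pair x y z (t • w), ← h.pair x y z w, (BiForm.l2 h z x y).map_smul]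

theorem ext1 (e : OrthonormalBasis (Fin m × Bool) ℝ V) {f g : V → ℝ} (hf : IsLinearMap ℝ f)
    (hg : IsLinearMap ℝ g) (h : ∀ i, f (e i) = g (e i)) (x : V) : f x = g x := by
  have h1 : hf.mk' f = hg.mk' g := e.toBasis.ext fun i => by simpa using h i
  exact LinearMap.congr_fun h1 x

/-- bilinear form from its matrix -/
noncomputable def bf (e : OrthonormalBasis (Fin m × Bool) ℝ V)
    (ν : Fin m × Bool → Fin m × Bool → ℝ) : V →ₗ[ℝ] V →ₗ[ℝ] ℝ :=
  Matrix.toBilin e.toBasis (Matrix.of ν)

theorem bf_apply (e : OrthonormalBasis (Fin m × Bool) ℝ V)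
    (ν : Fin m × Bool → Fin m × Bool → ℝ) (i j : Fin m × Bool) : bf e ν (e i) (e j) = ν i j := by
  unfold bf
  rw [Matrix.toBilin_apply]
  rw [Finset.sum_eq_single i, Finset.sum_eq_single j]
  · simp
  · intro k _ hk
    simp [hk]
  · intro hk; exact absurd (Finset.mem_univ _) hk
  · intro k _ hk
    refine Finset.sum_eq_zero fun l _ => ?_
    simp [hk]
  · intro hk; exact absurd (Finset.mem_univ _) hk

/-- a nonnegative form on bivectors is a sum of squares of bilinear forms -/
theorem squares_lin (e : OrthonormalBasis (Fin m × Bool) ℝ V) {K : V → V → V → V → ℝ}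
    (hK : BiForm K) (hn : OpNonneg K) :
    ∃ (n : ℕ) (B : Fin n → V →ₗ[ℝ] V →ₗ[ℝ] ℝ),
      (∀ x y z w, K x y z w = ∑ a, B a x y * B a z w) ∧ ∀ a x y, B a y x = -B a x y := by
  obtain ⟨n, ν, h1, h2⟩ := BiForm.squares (fun i => e i) hK hn
  refine ⟨n, fun a => bf e (ν a), ?_, ?_⟩
  · have L1 : ∀ y z w, IsLinearMap ℝ (fun x => ∑ a, bf e (ν a) x y * bf e (ν a) z w) := by
      intro y z w
      refine ⟨fun x x' => ?_, fun t x => ?_⟩
      · rw [← Finset.sum_add_distrib]
        exact Finset.sum_congr rfl fun a _ => by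
          rw [map_add, LinearMap.add_apply]; ring
      · rw [smul_eq_mul, Finset.mul_sum]
        exact Finset.sum_congr rfl fun a _ => by
          rw [map_smul, LinearMap.smul_apply, smul_eq_mul]; ring
    have L2 : ∀ x z w, IsLinearMap ℝ (fun y => ∑ a, bf e (ν a) x y * bf e (ν a) z w) := by
      intro x z w
      refine ⟨fun y y' => ?_, fun t y => ?_⟩
      · rw [← Finset.sum_add_distrib]
        exact Finset.sum_congr rfl fun a _ => by rw [map_add]; ring
      · rw [smul_eq_mul, Finset.mul_sum]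
        exact Finset.sum_congr rfl fun a _ => by rw [map_smul, smul_eq_mul]; ring
    have L3 : ∀ x y w, IsLinearMap ℝ (fun z => ∑ a, bf e (ν a) x y * bf e (ν a) z w) := by
      intro x y w
      have := L1 w x y
      convert this using 2
      exact Finset.sum_congr rfl fun a _ => mul_comm _ _
    have L4 : ∀ x y z, IsLinearMap ℝ (fun w => ∑ a, bf e (ν a) x y * bf e (ν a) z w) := by
      intro x y z
      have := L2 z x y
      convert this using 2
      exact Finset.sum_congr rfl fun a _ => mul_comm _ _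
    intro x y z w
    refine ext1 e (BiForm.l1 hK y z w) (L1 y z w) (fun i => ?_) x
    refine ext1 e (BiForm.l2 hK (e i) z w) (L2 (e i) z w) (fun j => ?_) y
    refine ext1 e (BiForm.l3 hK (e i) (e j) w) (L3 (e i) (e j) w) (fun k => ?_) z
    refine ext1 e (BiForm.l4 hK (e i) (e j) (e k)) (L4 (e i) (e j) (e k)) (fun l => ?_) w
    rw [h2]
    simp only [bf_apply]
  · intro a x y
    refine ext1 e (f := fun x => bf e (ν a) y x) (g := fun x => -bf e (ν a) x y)
      ⟨fun x x' => by rw [map_add], fun t x => by rw [map_smul]⟩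
      ⟨fun x x' => by rw [map_add, LinearMap.add_apply]; ring,
        fun t x => by rw [map_smul, LinearMap.smul_apply]; simp⟩ (fun i => ?_) x
    refine ext1 e (f := fun y => bf e (ν a) y (e i)) (g := fun y => -bf e (ν a) (e i) y)
      ⟨fun x x' => by rw [map_add, LinearMap.add_apply],
        fun t x => by rw [map_smul, LinearMap.smul_apply]⟩
      ⟨fun x x' => by rw [map_add]; ring, fun t x => by rw [map_smul]; simp⟩ (fun j => ?_) y
    rw [bf_apply, bf_apply, h1]

end lin

section split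

variable {J : V →ₗ[ℝ] V}

theorem neg1 {N : V → V → V → V → ℝ} (hN : AlgCurv N) (x y z w : V) :
    N (-x) y z w = -N x y z w := by
  have := hN.smul (-1) x y z w
  simpa using this

theorem neg2 {N : V → V → V → V → ℝ} (hN : AlgCurv N) (x y z w : V) :
    N x (-y) z w = -N x y z w := by
  rw [hN.anti (-y) x, neg1 hN, hN.anti x y]; ring

theorem JJ1 {N : V → V → V → V → ℝ} (hN : AlgCurv N) (hJ : ∀ x, J (J x) = -x) (x y z w : V) :
    N (J (J x)) (J (J y)) z w = N x y z w := by
  rw [hJ, hJ, neg1 hN, neg2 hN, neg_neg]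

theorem JSplit.swap {N : V → V → V → V → ℝ} (h : JSplit J N) (hJ : ∀ x, J (J x) = -x)
    (x y z w : V) : N x y (J z) (J w) = N (J x) (J y) z w := by
  rw [← h.inv x y (J z) (J w), ← h.curv.pair (J x) (J y), JJ1 h.curv hJ, h.curv.pair]

theorem JSplit.bi_pos {N : V → V → V → V → ℝ} (h : JSplit J N) (hJ : ∀ x, J (J x) = -x) :
    BiForm fun x y z w => N x y z w + N (J x) (J y) z w where
  add x x' y z w := by simp only [map_add, h.curv.add]; ring
  smul t x y z w := by simp only [map_smul, h.curv.smul]; ring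
  anti x y z w := by rw [h.curv.anti x y, h.curv.anti (J x) (J y)]; ring
  pair x y z w := by
    rw [h.curv.pair x y z w, ← h.curv.pair (J z) (J w) x y, h.swap hJ]

theorem JSplit.bi_neg {N : V → V → V → V → ℝ} (h : JSplit J N) (hJ : ∀ x, J (J x) = -x) :
    BiForm fun x y z w => N (J x) (J y) z w - N x y z w where
  add x x' y z w := by simp only [map_add, h.curv.add]; ring
  smul t x y z w := by simp only [map_smul, h.curv.smul]; ring
  anti x y z w := by rw [h.curv.anti x y, h.curv.anti (J x) (J y)]; ring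
  pair x y z w := by
    rw [h.curv.pair x y z w, ← h.curv.pair (J z) (J w) x y, h.swap hJ]

/-- A split curvature tensor is a combination of squares of invariant and anti-invariant forms. -/
theorem JSplit.squares (e : OrthonormalBasis (Fin m × Bool) ℝ V) {N : V → V → V → V → ℝ}
    (h : JSplit J N) (hJ : ∀ x, J (J x) = -x) :
    ∃ (n p : ℕ) (B : Fin n → V →ₗ[ℝ] V →ₗ[ℝ] ℝ) (C : Fin p → V →ₗ[ℝ] V →ₗ[ℝ] ℝ),
      (∀ a x y, B a (J x) (J y) = B a x y) ∧ (∀ a x y, C a (J x) (J y) = -C a x y) ∧
      ∀ x y z u, N x y z u = ∑ a, 1 / 2 * (B a x z * B a y u - B a x u * B a y z) +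
        ∑ a, -(1 / 2) * (C a x z * C a y u - C a x u * C a y z) := by
  obtain ⟨n, B, hB, -⟩ := squares_lin e (h.bi_pos hJ) h.pos
  obtain ⟨p, C, hC, -⟩ := squares_lin e (h.bi_neg hJ) h.neg
  have hB' : ∀ x y z w, N x y z w + N (J x) (J y) z w = ∑ a, B a x y * B a z w := hB
  have hC' : ∀ x y z w, N (J x) (J y) z w - N x y z w = ∑ a, C a x y * C a z w := hC
  refine ⟨n, p, fun a => (1 / 2 : ℝ) • (B a + (B a).compl₁₂ J J),
    fun a => (1 / 2 : ℝ) • (C a - (C a).compl₁₂ J J), ?_, ?_, ?_⟩
  · intro a x y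
    simp only [LinearMap.smul_apply, LinearMap.add_apply, LinearMap.compl₁₂_apply, hJ, map_neg,
      LinearMap.neg_apply, neg_neg, smul_eq_mul]
    ring
  · intro a x y
    simp only [LinearMap.smul_apply, LinearMap.sub_apply, LinearMap.compl₁₂_apply, hJ, map_neg,
      LinearMap.neg_apply, neg_neg, smul_eq_mul]
    ring
  · -- the operator as a combination of squares
    have hop : ∀ x y z w, N x y z w =
        (∑ a, 1 / 2 * (((1 / 2 : ℝ) • (B a + (B a).compl₁₂ J J)) x y *
          ((1 / 2 : ℝ) • (B a + (B a).compl₁₂ J J)) z w)) +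
        ∑ a, -(1 / 2) * (((1 / 2 : ℝ) • (C a - (C a).compl₁₂ J J)) x y *
          ((1 / 2 : ℝ) • (C a - (C a).compl₁₂ J J)) z w) := by
      intro x y z w
      have e1 := hB' x y z w
      have e2 := hB' (J x) (J y) z w
      have e3 := hB' x y (J z) (J w)
      have e4 := hB' (J x) (J y) (J z) (J w)
      have f1 := hC' x y z w
      have f2 := hC' (J x) (J y) z w
      have f3 := hC' x y (J z) (J w)
      have f4 := hC' (J x) (J y) (J z) (J w)
      have s1 := h.swap hJ x y z w
      have s2 := h.inv x y z w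
      have s3 := JJ1 h.curv hJ x y z w
      have s4 := JJ1 h.curv hJ x y (J z) (J w)
      rw [s3] at e2 f2
      rw [s1, s2] at e3
      rw [s2, s1] at f3
      rw [s4, s2, s1] at e4
      rw [s4, s1, s2] at f4
      have hb : (∑ a, 1 / 2 * (((1 / 2 : ℝ) • (B a + (B a).compl₁₂ J J)) x y *
          ((1 / 2 : ℝ) • (B a + (B a).compl₁₂ J J)) z w)) =
          1 / 8 * (∑ a, B a x y * B a z w + ∑ a, B a (J x) (J y) * B a z w +
            ∑ a, B a x y * B a (J z) (J w) + ∑ a, B a (J x) (J y) * B a (J z) (J w)) := by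
        rw [← Finset.sum_add_distrib, ← Finset.sum_add_distrib, ← Finset.sum_add_distrib,
          Finset.mul_sum]
        refine Finset.sum_congr rfl fun a _ => ?_
        simp only [LinearMap.smul_apply, LinearMap.add_apply, LinearMap.compl₁₂_apply,
          smul_eq_mul]
        ring
      have hc : (∑ a, -(1 / 2) * (((1 / 2 : ℝ) • (C a - (C a).compl₁₂ J J)) x y *
          ((1 / 2 : ℝ) • (C a - (C a).compl₁₂ J J)) z w)) =
          -(1 / 8) * (∑ a, C a x y * C a z w - ∑ a, C a (J x) (J y) * C a z w -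
            ∑ a, C a x y * C a (J z) (J w) + ∑ a, C a (J x) (J y) * C a (J z) (J w)) := by
        rw [← Finset.sum_sub_distrib, ← Finset.sum_sub_distrib, ← Finset.sum_add_distrib,
          Finset.mul_sum]
        refine Finset.sum_congr rfl fun a _ => ?_
        simp only [LinearMap.smul_apply, LinearMap.sub_apply, LinearMap.compl₁₂_apply,
          smul_eq_mul]
        ring
      rw [hb, hc, ← e1, ← e2, ← e3, ← e4, ← f1, ← f2, ← f3, ← f4]
      ring
    intro x y z u
    have hbi : N x y z u = N x z y u - N x u y z := by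
      have h1 := h.curv.bianchi x y z u
      have h2 := h.curv.pair y z x u
      have h3 := h.curv.anti x z y u
      rw [h.curv.anti x z y u] at h1
      linarith [h.curv.pair x u y z]
    rw [hbi, hop x z y u, hop x u y z, add_sub_add_comm, ← Finset.sum_sub_distrib,
      ← Finset.sum_sub_distrib]
    congr 1
    · exact Finset.sum_congr rfl fun a _ => by ring
    · exact Finset.sum_congr rfl fun a _ => by ring

/-- the bilinear map of a symmetric form -/
def symMap {h : V → V → ℝ} (hh : SymForm h) : V →ₗ[ℝ] V →ₗ[ℝ] ℝ :=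
  LinearMap.mk₂ ℝ h hh.add (fun t x y => hh.smul t x y)
    (fun x y y' => by rw [← hh.symm x (y + y'), hh.add, hh.symm x y, hh.symm x y'])
    (fun t x y => by rw [← hh.symm x (t • y), hh.smul, hh.symm x y]; rfl)

theorem symMap_apply {h : V → V → ℝ} (hh : SymForm h) (x y : V) : symMap hh x y = h x y := rfl

/-- the representation of a tensor of the class -/
theorem HermData.rep (e : OrthonormalBasis (Fin m × Bool) ℝ V) (hJ : ∀ x, J (J x) = -x)
    {a b : ℕ} {h : Fin a → V → V → ℝ} {q : Fin b → V → V → ℝ} {N T : V → V → V → V → ℝ}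
    (H : HermData J h q N T) :
    ∃ (n p : ℕ) (w : (Fin a ⊕ Fin b) ⊕ (Fin n ⊕ Fin p) → ℝ)
      (B : (Fin a ⊕ Fin b) ⊕ (Fin n ⊕ Fin p) → V →ₗ[ℝ] V →ₗ[ℝ] ℝ),
      GenRep J LinearMap.id w B T ∧ (∀ k, w (Sum.inl (Sum.inl k)) = 1) ∧
      ∀ k x y, B (Sum.inl (Sum.inl k)) x y = h k x y := by
  obtain ⟨hh, hq, hN, hT⟩ := H
  obtain ⟨n, p, B, C, hB, hC, hNs⟩ := hN.squares e hJ
  refine ⟨n, p, Sum.elim (Sum.elim (fun _ => 1) (fun _ => -1))
    (Sum.elim (fun _ => 1 / 2) (fun _ => -(1 / 2))),
    Sum.elim (Sum.elim (fun k => symMap (hh k).1) (fun l => symMap (hq l).1))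
      (Sum.elim B C), ⟨?_, ?_⟩, fun k => rfl, fun k x y => rfl⟩
  · rintro ((k | k) | (k | k))
    · left
      refine ⟨by simp, fun x y => ?_⟩
      simpa [symMap_apply] using (hh k).2 x y
    · right
      refine ⟨by simp, fun x y => ?_⟩
      simpa [symMap_apply] using (hq k).2 x y
    · left
      refine ⟨by simp, fun x y => ?_⟩
      simpa using hB k x y
    · right
      refine ⟨by simp, fun x y => ?_⟩
      simpa using hC k x y
  · intro x y z u
    rw [hT, hNs]
    simp only [Fintype.sum_sum_type, Sum.elim_inl, Sum.elim_inr, symMap_apply, knSq, one_mul,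
      neg_mul, Finset.sum_neg_distrib]
    ring

theorem herm_sign (e : OrthonormalBasis (Fin m × Bool) ℝ V) (hJ : ∀ x, J (J x) = -x)
    {R : V → V → V → V → ℝ} (h : HermType J (fun x y z u => -R x y z u)) :
    0 ≤ (-1) ^ m * gbc e R := by
  obtain ⟨a, b, h, q, N, H⟩ := h
  obtain ⟨n, p, w, B, hrep, -, -⟩ := H.rep e hJ
  have h1 := gen_sign e hJ hrep
  rwa [LinearMap.det_id, one_mul] at h1

theorem det_ne_of_nondeg (e : OrthonormalBasis (Fin m × Bool) ℝ V) {h : V → V → ℝ}
    (hh : SymForm h) (hn : ∀ x, (∀ y, h x y = 0) → x = 0) :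
    (Matrix.of fun i j => h (e i) (e j)).det ≠ 0 := by
  intro h0
  obtain ⟨v, hv, hMv⟩ := Matrix.exists_mulVec_eq_zero_iff.2 h0
  apply hv
  have h1 : ∀ i, symMap hh (e i) (∑ j, v j • e j) = 0 := by
    intro i
    have h2 := congrFun hMv i
    simp only [Matrix.mulVec, dotProduct, Matrix.of_apply, Pi.zero_apply] at h2
    rw [map_sum, ← h2]
    refine Finset.sum_congr rfl fun j _ => ?_
    rw [map_smul, symMap_apply, smul_eq_mul, mul_comm]
  have h2 : ∀ y, h (∑ j, v j • e j) y = 0 := by
    intro y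
    rw [← hh.symm, ← symMap_apply hh]
    exact ext1 e (f := fun y => symMap hh y (∑ j, v j • e j)) (g := fun _ => 0)
      ⟨fun x x' => by rw [map_add, LinearMap.add_apply],
        fun t x => by rw [map_smul, LinearMap.smul_apply]⟩
      ⟨fun _ _ => by simp, fun _ _ => by simp⟩ (fun i => h1 i) y
  have h3 := hn _ h2
  have h4 := (Fintype.linearIndependent_iff.1 e.toBasis.linearIndependent) v (by simpa using h3)
  funext i
  exact h4 i

theorem herm_sign_pos (e : OrthonormalBasis (Fin m × Bool) ℝ V) (hJ : ∀ x, J (J x) = -x)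
    {R : V → V → V → V → ℝ} (h : HermTypePos J (fun x y z u => -R x y z u)) :
    0 < (-1) ^ m * gbc e R := by
  obtain ⟨a, b, h, q, N, H, k, hk⟩ := h
  obtain ⟨n, p, w, B, hrep, hw, hBk⟩ := H.rep e hJ
  have hdet := det_ne_of_nondeg e (H.1 k).1 hk
  have h1 := gen_sign_pos e hJ hrep (by rw [LinearMap.det_id]; exact one_ne_zero)
    (Sum.inl (Sum.inl k)) (by rw [hw]; exact one_ne_zero) (by
      simp only [hBk]
      exact hdet)
  rwa [LinearMap.det_id, one_mul] at h1

end split

end Pool.Agent.Run7.h820.HQ
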